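import Pool.Agent.N381.AC.Circ

set_option autoImplicit false

/-!
# Digits of integers, circuits read through maps of words
-/

namespace Pool.Agent.V5helper56.DC

open Finset Function
open Pool.Agent.N381.AC

/-- circuits read through a map of words -/
def pull {w n m : ℕ} {L L' : Type} (C : Circuit w L n) (φ : (Fin m → L') → Fin n → L)
    (hφ : ∀ i, (∃ (v : Fin m) (g : L' → L), ∀ x, φ x i = g (x v)) ∨ ∃ c, ∀ x, φ x i = c) :
    Circuit w L' m :=
  haveI := C.finite
  { Node := C.Node
    val := fun v x => C.val v (φ x)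
    depth := C.depth
    rule := by
      classical
      intro v
      rcases C.rule v with ⟨i, S, hS⟩ | ⟨J, hJd, hJ⟩
      · rcases hφ i with ⟨v', g, hg⟩ | ⟨c, hc⟩
        · left
          refine ⟨v', {z | g z ∈ S}, fun x => ?_⟩
          rw [hS, hg]
          rfl
        · right
          refine ⟨∅, by simp, Or.inl ⟨by simp, fun _ => decide (c ∈ S), fun x => ?_⟩⟩
          rw [Bool.eq_iff_iff, hS, hc]
          simp
      · right
        refine ⟨J, hJd, ?_⟩
        rcases hJ with ⟨h1, F, hF⟩ | h | h
        · exact Or.inl ⟨h1, F, fun x => hF _⟩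
        · exact Or.inr (Or.inl fun x => h _)
        · exact Or.inr (Or.inr fun x => h _) }

theorem pull_card {w n m : ℕ} {L L' : Type} (C : Circuit w L n) (φ : (Fin m → L') → Fin n → L)
    (hφ : ∀ i, (∃ (v : Fin m) (g : L' → L), ∀ x, φ x i = g (x v)) ∨ ∃ c, ∀ x, φ x i = c) :
    Nat.card (pull C φ hφ).Node = Nat.card C.Node := rfl

/-- the values of the circuit which tests whether all letters belong to given sets -/
noncomputable def bval {m : ℕ} {L : Type} (D : Fin m → Set L) (v : Option (Fin m))
    (x : Fin m → L) : Bool := by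
  classical
  exact match v with
    | some i => decide (x i ∈ D i)
    | none => decide (∀ i, x i ∈ D i)

/-- the depths of this circuit -/
def bdepth {m : ℕ} (v : Option (Fin m)) : ℕ :=
  match v with
  | some _ => 0
  | none => 1

/-- the circuit which tests whether all letters belong to given sets -/
noncomputable def boxC (w : ℕ) {m : ℕ} {L : Type} (D : Fin m → Set L) : Circuit w L m where
  Node := Option (Fin m)
  val := bval D
  depth := bdepth
  rule := by
    classical
    intro v
    cases v with
    | some i =>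
      left
      refine ⟨i, D i, fun x => ?_⟩
      simp [bval]
    | none =>
      right
      refine ⟨univ.image fun i : Fin m => (some i, true), ?_, Or.inr (Or.inl fun x => ?_)⟩
      · intro u hu
        obtain ⟨i, -, rfl⟩ := mem_image.1 hu
        exact Nat.zero_lt_one
      · rw [Bool.eq_iff_iff]
        simp [bval]

theorem boxC_card (w : ℕ) {m : ℕ} {L : Type} (D : Fin m → Set L) :
    Nat.card (boxC w D).Node = m + 1 := by
  show Nat.card (Option (Fin m)) = m + 1
  simp

theorem boxC_depth (w : ℕ) {m : ℕ} {L : Type} (D : Fin m → Set L) (v : (boxC w D).Node) :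
    (boxC w D).depth v ≤ 1 := by
  have h : ∀ v : Option (Fin m), bdepth v ≤ 1 := by
    intro v
    cases v with
    | some i => exact Nat.zero_le _
    | none => exact le_rfl
  exact h v

/-- the output -/
def boxOut (w : ℕ) {m : ℕ} {L : Type} (D : Fin m → Set L) : (boxC w D).Node :=
  (none : Option (Fin m))

theorem boxC_val (w : ℕ) {m : ℕ} {L : Type} (D : Fin m → Set L) (x : Fin m → L) :
    (boxC w D).val (boxOut w D) x = true ↔ ∀ i, x i ∈ D i := by
  classical
  show bval D none x = true ↔ _
  simp [bval]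

/-- the number with given digits -/
def num (B : ℕ) {m : ℕ} (y : Fin m → ℕ) : ℕ := ∑ v, y v * B ^ (v : ℕ)

theorem num_zero (B : ℕ) (y : Fin 0 → ℕ) : num B y = 0 := by simp [num]

theorem num_succ (B : ℕ) {m : ℕ} (y : Fin (m + 1) → ℕ) :
    num B y = y 0 + B * num B (fun v : Fin m => y v.succ) := by
  unfold num
  rw [Fin.sum_univ_succ, mul_sum]
  simp only [Fin.val_zero, pow_zero, mul_one, Fin.val_succ]
  congr 1
  apply sum_congr rfl
  intro v _
  rw [pow_succ]
  ring

theorem num_lt {B : ℕ} : ∀ {m : ℕ} (y : Fin m → ℕ), (∀ v, y v < B) → num B y < B ^ m := by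
  intro m
  induction m with
  | zero => intro y _; simp [num]
  | succ m ih =>
    intro y hy
    rw [num_succ]
    have h1 := ih (fun v : Fin m => y v.succ) fun v => hy _
    have h2 := hy 0
    rw [pow_succ]
    calc y 0 + B * num B (fun v : Fin m => y v.succ) < B + B * num B (fun v : Fin m => y v.succ) := by
          omega
      _ = B * (num B (fun v : Fin m => y v.succ) + 1) := by ring
      _ ≤ B * B ^ m := Nat.mul_le_mul_left _ h1
      _ = B ^ m * B := by ring

theorem num_digit {B : ℕ} : ∀ {m : ℕ} (y : Fin m → ℕ) (c : ℕ), (∀ v, y v < B) → ∀ u : Fin m,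
    (num B y + c * B ^ m) / B ^ (u : ℕ) % B = y u := by
  intro m
  induction m with
  | zero => intro y c _ u; exact u.elim0
  | succ m ih =>
    intro y c hy u
    have hB : 0 < B := lt_of_le_of_lt (Nat.zero_le _) (hy 0)
    have e : num B y + c * B ^ (m + 1) =
        y 0 + B * (num B (fun v : Fin m => y v.succ) + c * B ^ m) := by
      rw [num_succ, pow_succ]
      ring
    rw [e]
    refine Fin.cases ?_ (fun u => ?_) u
    · simp only [Fin.val_zero, pow_zero, Nat.div_one]
      rw [Nat.add_mul_mod_self_left, Nat.mod_eq_of_lt (hy 0)]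
    · rw [Fin.val_succ, pow_succ', ← Nat.div_div_eq_div_mul, Nat.add_mul_div_left _ _ hB,
        Nat.div_eq_of_lt (hy 0), zero_add]
      exact ih _ c (fun v => hy _) u

theorem num_top {B m : ℕ} (hB : 0 < B) (y : Fin m → ℕ) (c : ℕ) (hy : ∀ v, y v < B) :
    (num B y + c * B ^ m) / B ^ m = c := by
  rw [Nat.add_mul_div_right _ _ (by positivity), Nat.div_eq_of_lt (num_lt y hy), zero_add]

theorem num_word (B : ℕ) (m a : ℕ) : num B (fun v : Fin m => a / B ^ (v : ℕ) % B) = a % B ^ m := by
  induction m with
  | zero => simp [num, Nat.mod_one]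
  | succ m ih =>
    unfold num at ih ⊢
    rw [Fin.sum_univ_castSucc]
    simp only [Fin.val_castSucc, Fin.val_last]
    rw [ih, Nat.mod_pow_succ]
    ring

theorem mod_digit {b s t : ℕ} (hb : 0 < b) (ht : t < s) (X : ℕ) :
    X % b ^ s / b ^ t % b = X / b ^ t % b := by
  obtain ⟨r, hr⟩ : ∃ r, s = t + 1 + r := ⟨s - (t + 1), by omega⟩
  have h1 : X = b ^ s * (X / b ^ s) + X % b ^ s := (Nat.div_add_mod _ _).symm
  have h2 : X / b ^ t = X % b ^ s / b ^ t + b * (b ^ r * (X / b ^ s)) := by
    conv_lhs => rw [h1]
    have e : b ^ s * (X / b ^ s) + X % b ^ s = X % b ^ s + b ^ t * (b * (b ^ r * (X / b ^ s))) := by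
      rw [hr, pow_add, pow_add, pow_one]
      ring
    rw [e, Nat.add_mul_div_left _ _ (by positivity)]
  rw [h2, Nat.add_mul_mod_self_left]

/-- digits of digits -/
theorem digit_digit {b s : ℕ} (hb : 0 < b) (hs : 0 < s) (N i : ℕ) :
    N / b ^ i % b = N / (b ^ s) ^ (i / s) % b ^ s / b ^ (i % s) % b := by
  rw [mod_digit hb (Nat.mod_lt _ hs), ← pow_mul, Nat.div_div_eq_div_mul, ← pow_add,
    Nat.div_add_mod]

/-- the sum of the powers in a set of places has digits `0`, `1` -/
theorem binary_digits {b s m : ℕ} (hb : 2 ≤ b) (hs : 0 < s) (W : Finset (Fin m)) (i : ℕ) :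
    num (b ^ s) (fun v => if v ∈ W then 1 else 0) / b ^ i % b ≤ 1 := by
  have hB : 2 ≤ b ^ s := by
    calc 2 ≤ b ^ 1 := by simpa using hb
      _ ≤ b ^ s := Nat.pow_le_pow_right (by omega) hs
  have hy : ∀ v : Fin m, (fun v : Fin m => if v ∈ W then 1 else 0) v < b ^ s := by
    intro v
    by_cases h : v ∈ W <;> simp only [h, if_true, if_false] <;> omega
  rw [digit_digit (by omega) hs]
  by_cases hi : i / s < m
  · have h := num_digit (fun v : Fin m => if v ∈ W then 1 else 0) 0 hy ⟨i / s, hi⟩
    rw [zero_mul, add_zero] at h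
    rw [h]
    refine (Nat.mod_le _ _).trans ((Nat.div_le_self _ _).trans ?_)
    split_ifs <;> omega
  · have h1 := num_lt _ hy
    have h2 : num (b ^ s) (fun v : Fin m => if v ∈ W then 1 else 0) / (b ^ s) ^ (i / s) = 0 := by
      apply Nat.div_eq_of_lt
      exact lt_of_lt_of_le h1 (Nat.pow_le_pow_right (by omega) (by omega))
    rw [h2]
    simp

theorem num_eq_zero {B m : ℕ} (hB : 0 < B) (W : Finset (Fin m))
    (h : num B (fun v => if v ∈ W then 1 else 0) = 0) : W = ∅ := by
  unfold num at h
  rw [Finset.sum_eq_zero_iff] at h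
  rw [Finset.eq_empty_iff_forall_notMem]
  intro v hv
  have := h v (mem_univ v)
  simp only [hv, if_true, one_mul] at this
  exact absurd this (by positivity)

end Pool.Agent.V5helper56.DC
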