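import Pool.Agent.N381.AC.Poly
import Pool.Agent.V5helper56.DC.Num

set_option autoImplicit false

/-!
# Progression-free sets of integers which are supports of polynomials in digit circuits
-/

namespace Pool.Agent.V5helper56.DC

open Finset Function
open Pool.Agent.N381.AC

section box
variable {K : Type} [Field K] {w T m : ℕ} {L : Type}

/-- the test of the box and the given circuits -/
noncomputable def cons (w : ℕ) (D : Fin m → Set L) (C : Fin T → Circuit w L m) :
    Fin (T + 1) → Circuit w L m :=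
  Fin.cases (boxC w D) C

theorem cons_zero (D : Fin m → Set L) (C : Fin T → Circuit w L m) :
    cons w D C 0 = boxC w D := rfl

theorem cons_succ (D : Fin m → Set L) (C : Fin T → Circuit w L m) (i : Fin T) :
    cons w D C i.succ = C i := rfl

/-- outputs -/
noncomputable def consOut (D : Fin m → Set L) (C : Fin T → Circuit w L m)
    (o : ∀ i, (C i).Node) : ∀ i, (cons w D C i).Node :=
  Fin.cases (boxOut w D) o

theorem cons_val_zero (D : Fin m → Set L) (C : Fin T → Circuit w L m) (o : ∀ i, (C i).Node)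
    (x : Fin m → L) : (cons w D C 0).val (consOut D C o 0) x = true ↔ ∀ i, x i ∈ D i :=
  boxC_val w D x

theorem cons_val_succ (D : Fin m → Set L) (C : Fin T → Circuit w L m) (o : ∀ i, (C i).Node)
    (x : Fin m → L) (i : Fin T) :
    (cons w D C i.succ).val (consOut D C o i.succ) x = (C i).val (o i) x := rfl

theorem box_poly [Fintype L] [DecidableEq L] {k ℓ d q : ℕ} (hw : 1 ≤ w) (hd1 : 1 ≤ d)
    (hm : m < 2 ^ ℓ) (D : Fin m → Set L)
    (π : Fin k → Fin m → Equiv.Perm L) (A : Finset (Fin m → L))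
    (hA : ∀ (x : Fin m → L) (W : Finset (Fin m)), (∀ j, mix (π j) W x ∈ A) → W = ∅)
    (C : Fin T → Circuit w L m) (o : ∀ i, (C i).Node)
    (hs : ∀ i, m + Nat.card (C i).Node ≤ 2 ^ ℓ) (hd : ∀ i v, (C i).depth v ≤ d)
    (P : MvPolynomial (Fin T) K) (hP : P.totalDegree ≤ q)
    (hval : ∀ x, x ∈ A ↔ (∀ i, x i ∈ D i) ∧
      MvPolynomial.eval (fun i => if (C i).val (o i) x = true then (1 : K) else 0) P ≠ 0) :
    (A.card : ℝ) ≤ 4 * (4 ^ (k * (q + 1) * (ℓ + 1)) + k * (T + 1)) * (Fintype.card L : ℝ) ^ m *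
      (2 : ℝ) ^ (-((m : ℝ) / (2 * (k * (q + 1) * (d + 1) + 1) *
        (2 ^ (d + 10) * (w * (ℓ + 1))) ^ (d + 1)))) := by
  have h2 : 2 ^ (ℓ + 1) = 2 ^ ℓ + 2 ^ ℓ := by ring
  have h := poly_bound (K := K) (k := k) (w := w) (ℓ := ℓ + 1) (d := d) (T := T + 1) (q := q + 1)
    (by omega) hw π A hA (cons w D C) (consOut D C o) (by
      intro i
      refine Fin.cases ?_ (fun i => ?_) i
      · rw [cons_zero, boxC_card]
        omega
      · rw [cons_succ]
        have := hs i
        omega) (by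
      intro i
      refine Fin.cases ?_ (fun i => ?_) i
      · intro v
        exact (boxC_depth w D v).trans hd1
      · exact hd i)
    (MvPolynomial.rename Fin.succ P * MvPolynomial.X 0) (by
      refine (MvPolynomial.totalDegree_mul _ _).trans ?_
      rw [MvPolynomial.totalDegree_X]
      exact Nat.add_le_add ((MvPolynomial.totalDegree_rename_le _ _).trans hP) le_rfl) (by
      intro x
      rw [hval, map_mul, MvPolynomial.eval_X, MvPolynomial.eval_rename, mul_ne_zero_iff, and_comm]
      have e1 : (fun i => if (cons w D C i).val (consOut D C o i) x = true then (1 : K) else 0) ∘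
          Fin.succ = fun i => if (C i).val (o i) x = true then (1 : K) else 0 := by
        funext i
        rw [comp_apply, cons_val_succ]
      rw [e1]
      refine and_congr Iff.rfl ?_
      by_cases h0 : ∀ i, x i ∈ D i
      · rw [if_pos ((cons_val_zero D C o x).2 h0)]
        exact ⟨fun _ => one_ne_zero, fun _ => h0⟩
      · rw [if_neg fun h => h0 ((cons_val_zero D C o x).1 h)]
        exact ⟨fun h => absurd h h0, fun h => absurd rfl h⟩)
  push_cast at h
  exact h

end box

/-- `A` contains no progression `a, a + d, …, a + (k - 1) d` with `d > 0` and all digits of `d` in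
base `b` equal to `0` or `1`. -/
def BinaryAPFree (b k : ℕ) (A : Finset ℕ) : Prop :=
  ∀ a d : ℕ, (∀ i, d / b ^ i % b ≤ 1) → (∀ j < k, a + j * d ∈ A) → d = 0

/-- `F` is the set of the numbers `a < b ^ n` whose word of `n` digits in base `b` is accepted by a
circuit of depth at most `d`, the number of whose nodes plus `n` is at most `2 ^ ℓ`. -/
def Decided (b n w ℓ d : ℕ) (F : Finset ℕ) : Prop :=
  ∃ (C : Circuit w ℕ n) (o : C.Node), n + Nat.card C.Node ≤ 2 ^ ℓ ∧ (∀ v, C.depth v ≤ d) ∧
    ∀ a, a ∈ F ↔ a < b ^ n ∧ C.val o (fun i => a / b ^ (i : ℕ) % b) = true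

/-- `A` is the set of the numbers `a < b ^ n` at which a polynomial of total degree at most `q`,
over some field, in the indicator functions of `T` sets decided by circuits, does not vanish. -/
def SupportOf (b n w ℓ d T q : ℕ) (A : Finset ℕ) : Prop :=
  ∃ (K : Type) (_ : Field K) (F : Fin T → Finset ℕ) (P : MvPolynomial (Fin T) K),
    (∀ i, Decided b n w ℓ d (F i)) ∧ P.totalDegree ≤ q ∧
    ∀ a, a ∈ A ↔ a < b ^ n ∧ MvPolynomial.eval (fun i => if a ∈ F i then (1 : K) else 0) P ≠ 0

/-- `(2 ^ (d + 10) w ℓ) ^ (d + 1)` -/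
def loss (w ℓ d : ℕ) : ℕ := (2 ^ (d + 10) * (w * ℓ)) ^ (d + 1)

section slice
variable {b s m k : ℕ}

/-- the digits of the number with the lower digits `x` in base `b ^ s` and the upper part `c` -/
def phi (b s m n k c : ℕ) (x : Fin m → ZMod (b ^ s + k)) (i : Fin n) : ℕ :=
  if h : (i : ℕ) / s < m then (x ⟨(i : ℕ) / s, h⟩).val / b ^ ((i : ℕ) % s) % b
  else c / b ^ ((i : ℕ) - s * m) % b

theorem phi_letter (n c : ℕ) (i : Fin n) :
    (∃ (v : Fin m) (g : ZMod (b ^ s + k) → ℕ), ∀ x, phi b s m n k c x i = g (x v)) ∨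
      ∃ c', ∀ x, phi b s m n k c x i = c' := by
  by_cases h : (i : ℕ) / s < m
  · left
    refine ⟨⟨(i : ℕ) / s, h⟩, fun z => z.val / b ^ ((i : ℕ) % s) % b, fun x => ?_⟩
    rw [phi, dif_pos h]
  · right
    refine ⟨c / b ^ ((i : ℕ) - s * m) % b, fun x => ?_⟩
    rw [phi, dif_neg h]

theorem phi_eq (hb : 0 < b) (hs : 0 < s) {n c : ℕ} (x : Fin m → ZMod (b ^ s + k))
    (hx : ∀ v, (x v).val < b ^ s) (i : Fin n) :
    (num (b ^ s) (fun v => (x v).val) + c * (b ^ s) ^ m) / b ^ (i : ℕ) % b =
      phi b s m n k c x i := by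
  unfold phi
  by_cases h : (i : ℕ) / s < m
  · rw [dif_pos h, digit_digit hb hs]
    have := num_digit (fun v => (x v).val) c hx ⟨(i : ℕ) / s, h⟩
    rw [this]
  · rw [dif_neg h]
    have h1 : s * m ≤ (i : ℕ) := by
      have h2 : m ≤ (i : ℕ) / s := by omega
      calc s * m ≤ s * ((i : ℕ) / s) := Nat.mul_le_mul_left _ h2
        _ ≤ i := Nat.mul_div_le _ _
    have h3 : b ^ (i : ℕ) = (b ^ s) ^ m * b ^ ((i : ℕ) - s * m) := by
      rw [← pow_mul, ← pow_add]
      congr 1
      omega
    rw [h3, ← Nat.div_div_eq_div_mul, num_top (by positivity) _ c hx]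

/-- the slice -/
noncomputable def slice (b s : ℕ) {m : ℕ} (k c : ℕ) [NeZero (b ^ s + k)] (A : Finset ℕ) :
    Finset (Fin m → ZMod (b ^ s + k)) := by
  classical
  exact univ.filter fun x => (∀ v, (x v).val < b ^ s) ∧
    num (b ^ s) (fun v => (x v).val) + c * (b ^ s) ^ m ∈ A

theorem mem_slice [NeZero (b ^ s + k)] {c : ℕ} {A : Finset ℕ} (x : Fin m → ZMod (b ^ s + k)) :
    x ∈ slice b s k c A ↔ (∀ v, (x v).val < b ^ s) ∧
      num (b ^ s) (fun v => (x v).val) + c * (b ^ s) ^ m ∈ A := by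
  classical
  unfold slice
  simp

theorem slice_pattern [NeZero (b ^ s + k)] (hb : 2 ≤ b) (hs : 0 < s) {c : ℕ} {A : Finset ℕ}
    (hA : BinaryAPFree b k A) (hk : 1 ≤ k) (x : Fin m → ZMod (b ^ s + k)) (W : Finset (Fin m))
    (h : ∀ j : Fin k, mix (fun _ => Equiv.addRight ((j : ℕ) : ZMod (b ^ s + k))) W x ∈
      slice b s k c A) : W = ∅ := by
  classical
  have hB : 0 < b ^ s := by positivity
  have h0 : ∀ v, (x v).val < b ^ s := by
    have h1 := ((mem_slice _).1 (h ⟨0, hk⟩)).1
    intro v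
    have h2 := h1 v
    by_cases hv : v ∈ W
    · simpa [mix, hv] using h2
    · simpa [mix, hv] using h2
  have hval : ∀ (j : ℕ), j < k → ∀ v,
      (mix (fun _ => Equiv.addRight ((j : ℕ) : ZMod (b ^ s + k))) W x v).val =
        (x v).val + j * (if v ∈ W then 1 else 0) := by
    intro j hj v
    have hjv : ((j : ℕ) : ZMod (b ^ s + k)).val = j := ZMod.val_cast_of_lt (by omega)
    have h3 := h0 v
    by_cases hv : v ∈ W
    · simp only [mix, hv, if_true, Equiv.coe_addRight, mul_one]
      rw [ZMod.val_add_of_lt (by rw [hjv]; omega), hjv]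
    · simp [mix, hv]
  apply num_eq_zero hB W
  apply hA (num (b ^ s) (fun v => (x v).val) + c * (b ^ s) ^ m) _
    (fun i => binary_digits hb hs W i)
  intro j hj
  have h1 := ((mem_slice _).1 (h ⟨j, hj⟩)).2
  convert h1 using 1
  have e : num (b ^ s) (fun v => (mix (fun _ => Equiv.addRight ((j : ℕ) : ZMod (b ^ s + k))) W
      x v).val) = num (b ^ s) (fun v => (x v).val) +
        j * num (b ^ s) (fun v => if v ∈ W then 1 else 0) := by
    unfold num
    rw [mul_sum, ← sum_add_distrib]
    apply sum_congr rfl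
    intro v _
    have := hval j hj v
    show (mix (fun _ => Equiv.addRight ((j : ℕ) : ZMod (b ^ s + k))) W x v).val * (b ^ s) ^ (v : ℕ) =
      (x v).val * (b ^ s) ^ (v : ℕ) + j * ((if v ∈ W then 1 else 0) * (b ^ s) ^ (v : ℕ))
    rw [this]
    ring
  show _ = num (b ^ s) (fun v => (mix (fun _ => Equiv.addRight ((j : ℕ) : ZMod (b ^ s + k))) W
      x v).val) + c * (b ^ s) ^ m
  rw [e]
  ring

/-- the word of a number -/
def wrd (b s k : ℕ) {m : ℕ} (a : ℕ) (v : Fin m) : ZMod (b ^ s + k) :=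
  ((a / (b ^ s) ^ (v : ℕ) % b ^ s : ℕ) : ZMod (b ^ s + k))

theorem wrd_val (hb : 0 < b) (a : ℕ) (v : Fin m) :
    (wrd b s k a v).val = a / (b ^ s) ^ (v : ℕ) % b ^ s := by
  apply ZMod.val_cast_of_lt
  have : a / (b ^ s) ^ (v : ℕ) % b ^ s < b ^ s := Nat.mod_lt _ (by positivity)
  omega

theorem card_slice [NeZero (b ^ s + k)] (hb : 0 < b) (c : ℕ) (A : Finset ℕ) :
    (A.filter fun a => a / (b ^ s) ^ m = c).card ≤ (slice (m := m) b s k c A).card := by
  classical
  have hnum : ∀ a, num (b ^ s) (fun v : Fin m => (wrd b s k a v).val) = a % (b ^ s) ^ m := by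
    intro a
    rw [← num_word]
    congr 1
    funext v
    exact wrd_val hb a v
  refine card_le_card_of_injOn (wrd b s k) ?_ ?_
  · intro a ha
    rw [mem_coe, mem_filter] at ha
    rw [mem_coe, mem_slice]
    refine ⟨fun v => ?_, ?_⟩
    · rw [wrd_val hb]
      exact Nat.mod_lt _ (by positivity)
    · rw [hnum, ← ha.2]
      have := Nat.mod_add_div a ((b ^ s) ^ m)
      rw [mul_comm] at this
      rw [this]
      exact ha.1
  · intro a ha a' ha' h
    rw [mem_coe, mem_filter] at ha ha'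
    have h1 := hnum a
    have h2 := hnum a'
    rw [h] at h1
    have h3 : a % (b ^ s) ^ m = a' % (b ^ s) ^ m := h1.symm.trans h2
    rw [← Nat.mod_add_div a ((b ^ s) ^ m), ← Nat.mod_add_div a' ((b ^ s) ^ m), h3, ha.2, ha'.2]

end slice

theorem main {b k n w ℓ d T q s : ℕ} (hb : 2 ≤ b) (hk : 1 ≤ k) (hw : 1 ≤ w) (hd : 1 ≤ d)
    (hT : 1 ≤ T) (hs : 1 ≤ s) (hkn : k * n ≤ b ^ s) (A : Finset ℕ) (hA : BinaryAPFree b k A)
    (h : SupportOf b n w ℓ d T q A) :
    (A.card : ℝ) ≤ 12 * (4 ^ (k * (q + 1) * (ℓ + 1)) + k * (T + 1)) * (b : ℝ) ^ n *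
      (2 : ℝ) ^ (-((n / s : ℕ) / (2 * (k * (q + 1) * (d + 1) + 1) * loss w (ℓ + 1) d) : ℝ)) := by
  classical
  obtain ⟨K, _, F, P, hF, hP, hval⟩ := h
  choose C o hsz hdep hC using hF
  have hB : 0 < b ^ s := by positivity
  have : NeZero (b ^ s + k) := ⟨by omega⟩
  obtain ⟨m, hm⟩ : ∃ m, m = n / s := ⟨_, rfl⟩
  have hmn : m ≤ n := by rw [hm]; exact Nat.div_le_self _ _
  have hnode : ∀ i, 1 ≤ Nat.card (C i).Node := by
    intro i
    have := (C i).finite
    have : Nonempty (C i).Node := ⟨o i⟩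
    exact Nat.card_pos
  have hn2 : n < 2 ^ ℓ := by
    have h1 := hsz ⟨0, hT⟩
    have h2 := hnode ⟨0, hT⟩
    omega
  obtain ⟨E, hE⟩ : ∃ E : ℝ, E = 4 * (4 ^ (k * (q + 1) * (ℓ + 1)) + k * (T + 1)) *
      ((b ^ s + k : ℕ) : ℝ) ^ m * (2 : ℝ) ^ (-((m : ℝ) / (2 * (k * (q + 1) * (d + 1) + 1) *
        (2 ^ (d + 10) * (w * (ℓ + 1))) ^ (d + 1)))) := ⟨_, rfl⟩
  have hslice : ∀ c < b ^ (n % s), ((slice (m := m) b s k c A).card : ℝ) ≤ E := by
    intro c hc
    have h1 := box_poly (K := K) (k := k) (ℓ := ℓ) (d := d) (q := q) hw hd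
      (lt_of_le_of_lt hmn hn2) (fun _ : Fin m => {z : ZMod (b ^ s + k) | z.val < b ^ s})
      (fun j _ => Equiv.addRight ((j : ℕ) : ZMod (b ^ s + k))) (slice b s k c A)
      (fun x W hW => slice_pattern hb hs hA hk x W hW)
      (fun i => pull (C i) (phi b s m n k c) (phi_letter n c))
      (fun i => (o i : (C i).Node)) (fun i => by
        rw [pull_card]
        exact (Nat.add_le_add_right hmn _).trans (hsz i)) (fun i => hdep i) P hP (by
        intro x
        rw [mem_slice]
        constructor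
        · rintro ⟨hx, hxA⟩
          refine ⟨hx, ?_⟩
          have h2 := ((hval _).1 hxA)
          have e : (fun i => if num (b ^ s) (fun v => (x v).val) + c * (b ^ s) ^ m ∈ F i then
              (1 : K) else 0) = fun i => if (C i).val (o i) (phi b s m n k c x) = true then
                (1 : K) else 0 := by
            funext i
            have h3 := hC i (num (b ^ s) (fun v => (x v).val) + c * (b ^ s) ^ m)
            have e' : (fun i : Fin n => (num (b ^ s) (fun v => (x v).val) + c * (b ^ s) ^ m) /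
                b ^ (i : ℕ) % b) = phi b s m n k c x := by
              funext i
              exact phi_eq (by omega) hs x hx i
            rw [e'] at h3
            by_cases h4 : (C i).val (o i) (phi b s m n k c x) = true
            · rw [if_pos h4, if_pos (h3.2 ⟨h2.1, h4⟩)]
            · rw [if_neg h4, if_neg fun h5 => h4 (h3.1 h5).2]
          have h5 := h2.2
          rw [e] at h5
          exact h5
        · rintro ⟨hx, hxP⟩
          have hx' : ∀ v, (x v).val < b ^ s := hx
          refine ⟨hx', ?_⟩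
          have hlt : num (b ^ s) (fun v => (x v).val) + c * (b ^ s) ^ m < b ^ n := by
            have h1 := num_lt (fun v => (x v).val) hx'
            have h2 : b ^ n = b ^ (n % s) * (b ^ s) ^ m := by
              rw [← pow_mul, ← pow_add, hm, add_comm, Nat.div_add_mod]
            rw [h2]
            calc num (b ^ s) (fun v => (x v).val) + c * (b ^ s) ^ m <
                (b ^ s) ^ m + c * (b ^ s) ^ m := Nat.add_lt_add_right h1 _
              _ = (c + 1) * (b ^ s) ^ m := by ring
              _ ≤ _ := Nat.mul_le_mul_right _ hc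
          rw [hval]
          refine ⟨hlt, ?_⟩
          have e : (fun i => if num (b ^ s) (fun v => (x v).val) + c * (b ^ s) ^ m ∈ F i then
              (1 : K) else 0) = fun i => if (C i).val (o i) (phi b s m n k c x) = true then
                (1 : K) else 0 := by
            funext i
            have h3 := hC i (num (b ^ s) (fun v => (x v).val) + c * (b ^ s) ^ m)
            have e' : (fun i : Fin n => (num (b ^ s) (fun v => (x v).val) + c * (b ^ s) ^ m) /
                b ^ (i : ℕ) % b) = phi b s m n k c x := by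
              funext i
              exact phi_eq (by omega) hs x hx' i
            rw [e'] at h3
            by_cases h4 : (C i).val (o i) (phi b s m n k c x) = true
            · rw [if_pos h4, if_pos (h3.2 ⟨hlt, h4⟩)]
            · rw [if_neg h4, if_neg fun h5 => h4 (h3.1 h5).2]
          rw [e]
          exact hxP)
    rw [ZMod.card] at h1
    rw [hE]
    exact h1
  have hcard : A.card = ∑ c ∈ range (b ^ (n % s)),
      (A.filter fun a => a / (b ^ s) ^ m = c).card := by
    apply card_eq_sum_card_fiberwise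
    intro a ha
    have hlt := ((hval a).1 ha).1
    rw [mem_coe, mem_range, Nat.div_lt_iff_lt_mul (by positivity), ← pow_mul, ← pow_add, hm,
      add_comm, Nat.div_add_mod]
    exact hlt
  have h1 : (A.card : ℝ) ≤ (b : ℝ) ^ (n % s) * E := by
    rw [hcard]
    push_cast
    calc ∑ c ∈ range (b ^ (n % s)), ((A.filter fun a => a / (b ^ s) ^ m = c).card : ℝ) ≤
        ∑ c ∈ range (b ^ (n % s)), E := by
          apply sum_le_sum
          intro c hc
          refine le_trans ?_ (hslice c (mem_range.1 hc))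
          exact_mod_cast card_slice (k := k) (by omega) c A
      _ = _ := by
          rw [sum_const, card_range, nsmul_eq_mul]
          push_cast
          rfl
  -- the distortion
  have hdist : ((b ^ s + k : ℕ) : ℝ) ^ m ≤ 3 * ((b : ℝ) ^ s) ^ m := by
    have hB' : (0 : ℝ) < (b : ℝ) ^ s := by positivity
    have h2 : ((b ^ s + k : ℕ) : ℝ) = (b : ℝ) ^ s * (1 + k / (b : ℝ) ^ s) := by
      push_cast
      field_simp
    rw [h2, mul_pow]
    have h3 : (1 + (k : ℝ) / (b : ℝ) ^ s) ^ m ≤ 3 := by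
      calc (1 + (k : ℝ) / (b : ℝ) ^ s) ^ m ≤ (Real.exp ((k : ℝ) / (b : ℝ) ^ s)) ^ m := by
            apply pow_le_pow_left₀ (by positivity)
            rw [add_comm]
            exact Real.add_one_le_exp _
        _ = Real.exp (m * ((k : ℝ) / (b : ℝ) ^ s)) := by rw [← Real.exp_nat_mul]
        _ ≤ Real.exp 1 := by
            apply Real.exp_le_exp.2
            rw [← mul_div_assoc, div_le_one hB']
            have h4 : m * k ≤ b ^ s := by
              calc m * k ≤ n * k := Nat.mul_le_mul_right _ hmn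
                _ = k * n := by ring
                _ ≤ _ := hkn
            exact_mod_cast h4
        _ ≤ 3 := by
            have := Real.exp_one_lt_d9
            linarith
    calc ((b : ℝ) ^ s) ^ m * (1 + (k : ℝ) / (b : ℝ) ^ s) ^ m ≤ ((b : ℝ) ^ s) ^ m * 3 :=
          mul_le_mul_of_nonneg_left h3 (by positivity)
      _ = _ := by ring
  have e1 : (b : ℝ) ^ n = (b : ℝ) ^ (n % s) * ((b : ℝ) ^ s) ^ m := by
    rw [← pow_mul, ← pow_add, hm, add_comm, Nat.div_add_mod]
  refine h1.trans ?_
  rw [hE, e1, ← hm]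
  have e2 : ((loss w (ℓ + 1) d : ℕ) : ℝ) = (2 ^ (d + 10) * ((w : ℝ) * (ℓ + 1))) ^ (d + 1) := by
    unfold loss
    push_cast
    rfl
  rw [e2]
  obtain ⟨X, hX⟩ : ∃ X : ℝ, X = (2 : ℝ) ^ (-((m : ℝ) / (2 * (k * (q + 1) * (d + 1) + 1) *
        (2 ^ (d + 10) * (w * (ℓ + 1))) ^ (d + 1)))) := ⟨_, rfl⟩
  rw [← hX]
  have hX0 : 0 ≤ X := by rw [hX]; positivity
  have h5 := mul_le_mul_of_nonneg_left hdist
    (show 0 ≤ (b : ℝ) ^ (n % s) * (4 * (4 ^ (k * (q + 1) * (ℓ + 1)) + k * (T + 1))) * X by
      positivity)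
  calc (b : ℝ) ^ (n % s) * (4 * (4 ^ (k * (q + 1) * (ℓ + 1)) + k * (T + 1)) *
        ((b ^ s + k : ℕ) : ℝ) ^ m * X) =
      (b : ℝ) ^ (n % s) * (4 * (4 ^ (k * (q + 1) * (ℓ + 1)) + k * (T + 1))) * X *
        ((b ^ s + k : ℕ) : ℝ) ^ m := by ring
    _ ≤ _ := h5
    _ = _ := by ring

end Pool.Agent.V5helper56.DC
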