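import Pool.Agent.V5helper56.DC.Relative
import Mathlib.Combinatorics.Additive.AP.Three.Behrend

set_option autoImplicit false

/-!
# Progression-free sets which are as large as Behrend's sets, and digit circuits
-/

namespace Pool.Agent.V5helper56.DC

open Finset Function
open Pool.Agent.N381.AC

theorem loss_eq (w ℓ d : ℕ) :
    ((loss w ℓ d : ℕ) : ℝ) = 2 ^ ((d + 10) * (d + 1)) * ((w : ℝ) * ℓ) ^ (d + 1) := by
  unfold loss
  push_cast
  rw [mul_pow, ← pow_mul]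

/-- the size of sets which are as large as Behrend's -/
theorem not_support (b : ℕ) (hb : 2 ≤ b) (k d : ℕ) (hk : 1 ≤ k) (hd : 1 ≤ d) (C : ℝ) :
    ∃ (c : ℝ) (n₀ : ℕ), 0 < c ∧ ∀ n w ℓ T q : ℕ, n₀ ≤ n → 1 ≤ w → 1 ≤ T →
      (T : ℝ) ≤ (2 : ℝ) ^ √(n : ℝ) → ∀ A : Finset ℕ, BinaryAPFree b k A →
      (b : ℝ) ^ n * Real.exp (-(C * √(n : ℝ))) ≤ A.card → SupportOf b n w ℓ d T q A →
      c * √(n : ℝ) / Real.log n ≤ (q + 1) * ((w : ℝ) * (ℓ + 1)) ^ (d + 1) := by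
  obtain ⟨C', hC'⟩ : ∃ C' : ℝ, C' = max C 0 / Real.log 2 := ⟨_, rfl⟩
  have hlog2 : 0 < Real.log 2 := Real.log_pos (by norm_num)
  have hC0 : 0 ≤ C' := by rw [hC']; positivity
  obtain ⟨K₁, hK₁⟩ : ∃ K₁ : ℝ, K₁ = 4 * k * (d + 1) * 2 ^ ((d + 10) * (d + 1)) := ⟨_, rfl⟩
  have hk' : (1 : ℝ) ≤ k := by exact_mod_cast hk
  have hK₁0 : 0 < K₁ := by rw [hK₁]; positivity
  obtain ⟨c, hc⟩ : ∃ c : ℝ, c = min (1 / (2 * (k : ℝ))) (1 / (8 * K₁ * (C' + 3))) := ⟨_, rfl⟩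
  have hc0 : 0 < c := by rw [hc]; exact lt_min (by positivity) (by positivity)
  have hc1 : c ≤ 1 / (2 * (k : ℝ)) := by rw [hc]; exact min_le_left _ _
  have hc2 : c ≤ 1 / (8 * K₁ * (C' + 3)) := by rw [hc]; exact min_le_right _ _
  obtain ⟨n₁, hn₁⟩ := exists_nat_gt ((12 * (1 + 2 * (k : ℝ))) ^ 2)
  refine ⟨c, max n₁ (max k 16), hc0, fun n w ℓ T q hn hw hT hT2 A hA hAc hS => ?_⟩
  have hnn₁ : n₁ ≤ n := (le_max_left _ _).trans hn
  have hnk : k ≤ n := ((le_max_left _ _).trans (le_max_right _ _)).trans hn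
  have hn16 : 16 ≤ n := ((le_max_right _ _).trans (le_max_right _ _)).trans hn
  have hn16' : (16 : ℝ) ≤ n := by exact_mod_cast hn16
  have hn0 : (0 : ℝ) < n := by linarith
  have hlogn : 1 ≤ Real.log n := by
    rw [Real.le_log_iff_exp_le hn0]
    have := Real.exp_one_lt_d9
    linarith
  have hlogn0 : 0 < Real.log n := by linarith
  have hsq0 : 0 < √(n : ℝ) := Real.sqrt_pos.2 hn0
  have hsq2 : √(n : ℝ) * √(n : ℝ) = n := Real.mul_self_sqrt hn0.le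
  by_contra hcon
  push Not at hcon
  obtain ⟨Z, hZ⟩ : ∃ Z : ℝ, Z = (q + 1) * ((w : ℝ) * (ℓ + 1)) ^ (d + 1) := ⟨_, rfl⟩
  rw [← hZ] at hcon
  have hw' : (1 : ℝ) ≤ w := by exact_mod_cast hw
  have hwl : (1 : ℝ) ≤ (w : ℝ) * (ℓ + 1) := by
    have : (1 : ℝ) ≤ ℓ + 1 := by
      have : (0 : ℝ) ≤ ℓ := Nat.cast_nonneg _
      linarith
    nlinarith
  have hZ1 : 0 < Z := by rw [hZ]; positivity
  -- the blocks
  obtain ⟨s, hs⟩ : ∃ s, s = Nat.log b (k * n) + 1 := ⟨_, rfl⟩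
  have hs1 : 1 ≤ s := by omega
  have hkn : k * n ≤ b ^ s := by
    rw [hs]
    exact (Nat.lt_pow_succ_log_self (by omega) _).le
  have hs4 : (s : ℝ) ≤ 4 * Real.log n := by
    have h1 : b ^ Nat.log b (k * n) ≤ k * n :=
      Nat.pow_log_le_self b (Nat.mul_pos hk (by omega)).ne'
    have h2 : (2 : ℝ) ^ Nat.log b (k * n) ≤ n * n := by
      calc (2 : ℝ) ^ Nat.log b (k * n) ≤ (b : ℝ) ^ Nat.log b (k * n) :=
            pow_le_pow_left₀ (by norm_num) (by exact_mod_cast hb) _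
        _ ≤ (k * n : ℕ) := by exact_mod_cast h1
        _ ≤ n * n := by
            push_cast
            exact mul_le_mul_of_nonneg_right (by exact_mod_cast hnk) hn0.le
    have h3 := Real.log_le_log (by positivity) h2
    rw [Real.log_pow, Real.log_mul hn0.ne' hn0.ne'] at h3
    have h4 : (0.69 : ℝ) < Real.log 2 := by
      have := Real.log_two_gt_d9
      linarith
    have h5 : ((Nat.log b (k * n) : ℕ) : ℝ) * 0.69 ≤ 2 * Real.log n := by
      have : (0 : ℝ) ≤ (Nat.log b (k * n) : ℕ) := Nat.cast_nonneg _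
      nlinarith
    rw [hs]
    push_cast
    have h6 : ((Nat.log b (k * n) : ℕ) : ℝ) ≤ 2 / 0.69 * Real.log n := by
      rw [div_mul_eq_mul_div, le_div_iff₀ (by norm_num)]
      exact h5
    have h7 : (2 : ℝ) / 0.69 ≤ 3 := by norm_num
    nlinarith
  have hs0 : (0 : ℝ) < s := by exact_mod_cast hs1
  have hlogle : 4 * Real.log n ≤ n := by
    -- `log n ≤ 2 (n ^ (1/4)) ...`: use `log x ≤ x / e`-type bounds through the square root
    have h1 : Real.log n = 4 * Real.log (√(√(n : ℝ))) := by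
      rw [Real.log_sqrt (Real.sqrt_nonneg _), Real.log_sqrt hn0.le]
      ring
    have h2 : Real.log (√(√(n : ℝ))) ≤ √(√(n : ℝ)) - 1 :=
      Real.log_le_sub_one_of_pos (Real.sqrt_pos.2 hsq0)
    have h3 : (4 : ℝ) ≤ √(n : ℝ) := by
      rw [Real.le_sqrt (by norm_num) hn0.le]
      linarith
    have h4 : (2 : ℝ) ≤ √(√(n : ℝ)) := by
      rw [Real.le_sqrt (by norm_num) hsq0.le]
      linarith
    obtain ⟨y, hy⟩ : ∃ y : ℝ, y = √(√(n : ℝ)) := ⟨_, rfl⟩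
    have h5 : y * y = √(n : ℝ) := by rw [hy]; exact Real.mul_self_sqrt hsq0.le
    rw [← hy] at h1 h2 h4
    have h6 : (n : ℝ) = y * y * (y * y) := by rw [h5, hsq2]
    rw [h1, h6]
    have h7 : 16 * (y - 1) ≤ y * y * (y * y) := by
      have h8 : 4 * (y * y) ≤ y * y * (y * y) := by nlinarith
      have h9 : 16 * (y - 1) ≤ 4 * (y * y) := by nlinarith [sq_nonneg (y - 2)]
      linarith
    linarith
  have hsn : s ≤ n := by
    have : (s : ℝ) ≤ n := hs4.trans hlogle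
    exact_mod_cast this
  have hfloor : (n : ℝ) / (2 * s) ≤ (n / s : ℕ) := by
    have h1 : 1 ≤ n / s := (Nat.one_le_div_iff hs1).2 hsn
    have h2 : n < s * (n / s + 1) := Nat.lt_mul_div_succ n hs1
    have h2' : (n : ℝ) < s * ((n / s : ℕ) + 1) := by exact_mod_cast h2
    have h1' : (1 : ℝ) ≤ (n / s : ℕ) := by exact_mod_cast h1
    rw [div_le_iff₀ (by positivity)]
    nlinarith
  have hmain := main hb hk hw hd hT hs1 hkn A hA hS
  -- the exponent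
  obtain ⟨D, hD⟩ : ∃ D : ℝ, D = 2 * (k * (q + 1) * (d + 1) + 1) * loss w (ℓ + 1) d := ⟨_, rfl⟩
  have hDle : D ≤ K₁ * Z := by
    rw [hD, loss_eq, hK₁, hZ]
    push_cast
    have h1 : (1 : ℝ) ≤ k * (q + 1) * (d + 1) := by
      have h2 : (1 : ℝ) ≤ q + 1 := by
        have : (0 : ℝ) ≤ q := Nat.cast_nonneg _
        linarith
      have h3 : (1 : ℝ) ≤ d + 1 := by
        have : (0 : ℝ) ≤ d := Nat.cast_nonneg _
        linarith
      have h4 : (1 : ℝ) ≤ k * (q + 1) := one_le_mul_of_one_le_of_one_le hk' h2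
      exact one_le_mul_of_one_le_of_one_le h4 h3
    have h5 : 2 * ((k : ℝ) * (q + 1) * (d + 1) + 1) ≤ 4 * (k * (q + 1) * (d + 1)) := by linarith
    calc 2 * ((k : ℝ) * (q + 1) * (d + 1) + 1) *
          (2 ^ ((d + 10) * (d + 1)) * ((w : ℝ) * (ℓ + 1)) ^ (d + 1)) ≤
        4 * (k * (q + 1) * (d + 1)) *
          (2 ^ ((d + 10) * (d + 1)) * ((w : ℝ) * (ℓ + 1)) ^ (d + 1)) :=
          mul_le_mul_of_nonneg_right h5 (by positivity)
      _ = _ := by ring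
  have hD0 : 0 < D := by
    rw [hD, loss_eq]
    positivity
  have hexp : (C' + 3) * √(n : ℝ) ≤ (n / s : ℕ) / D := by
    rw [le_div_iff₀ hD0]
    refine le_trans ?_ hfloor
    rw [le_div_iff₀ (by positivity)]
    have h1 : Z * Real.log n ≤ c * √(n : ℝ) := by
      rw [lt_div_iff₀ hlogn0] at hcon
      exact hcon.le
    have h2 : 8 * K₁ * (C' + 3) * c ≤ 1 := by
      rw [le_div_iff₀ (by positivity)] at hc2
      linarith
    calc (C' + 3) * √(n : ℝ) * D * (2 * s) ≤ (C' + 3) * √(n : ℝ) * (K₁ * Z) *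
          (2 * (4 * Real.log n)) := by
            apply mul_le_mul
            · exact mul_le_mul_of_nonneg_left hDle (by positivity)
            · exact mul_le_mul_of_nonneg_left hs4 (by norm_num)
            · positivity
            · positivity
      _ = 8 * K₁ * (C' + 3) * √(n : ℝ) * (Z * Real.log n) := by ring
      _ ≤ 8 * K₁ * (C' + 3) * √(n : ℝ) * (c * √(n : ℝ)) :=
          mul_le_mul_of_nonneg_left h1 (by positivity)
      _ = (8 * K₁ * (C' + 3) * c) * (√(n : ℝ) * √(n : ℝ)) := by ring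
      _ ≤ 1 * (√(n : ℝ) * √(n : ℝ)) := mul_le_mul_of_nonneg_right h2 (by positivity)
      _ = n := by rw [one_mul, hsq2]
  have hfour : (4 : ℝ) ^ (k * (q + 1) * (ℓ + 1)) ≤ (2 : ℝ) ^ √(n : ℝ) := by
    have h1 : (4 : ℝ) ^ (k * (q + 1) * (ℓ + 1)) =
        (2 : ℝ) ^ (2 * ((k : ℝ) * (q + 1) * (ℓ + 1))) := by
      rw [show (4 : ℝ) = 2 ^ 2 by norm_num, ← pow_mul, ← Real.rpow_natCast]
      push_cast
      ring_nf
    rw [h1]
    apply Real.rpow_le_rpow_of_exponent_le (by norm_num)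
    have h2 : (q + 1) * ((ℓ : ℝ) + 1) ≤ Z := by
      rw [hZ]
      apply mul_le_mul_of_nonneg_left _ (by positivity)
      calc (ℓ : ℝ) + 1 = 1 * (ℓ + 1) := by ring
        _ ≤ w * (ℓ + 1) := mul_le_mul_of_nonneg_right hw' (by positivity)
        _ ≤ (w * (ℓ + 1)) ^ (d + 1) := le_self_pow₀ hwl (by omega)
    have h3 : Z ≤ c * √(n : ℝ) := by
      refine hcon.le.trans ?_
      rw [div_le_iff₀ hlogn0]
      have : 0 ≤ c * √(n : ℝ) := by positivity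
      nlinarith
    have h4 : c * (2 * k) ≤ 1 := by
      rwa [le_div_iff₀ (by positivity)] at hc1
    calc 2 * ((k : ℝ) * (q + 1) * (ℓ + 1)) = 2 * k * ((q + 1) * ((ℓ : ℝ) + 1)) := by ring
      _ ≤ 2 * k * (c * √(n : ℝ)) := mul_le_mul_of_nonneg_left (h2.trans h3) (by positivity)
      _ = c * (2 * k) * √(n : ℝ) := by ring
      _ ≤ 1 * √(n : ℝ) := mul_le_mul_of_nonneg_right h4 hsq0.le
      _ = _ := one_mul _
  have hTT : (k : ℝ) * (T + 1) ≤ 2 * k * (2 : ℝ) ^ √(n : ℝ) := by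
    have h1 : (1 : ℝ) ≤ T := by exact_mod_cast hT
    have : (T : ℝ) + 1 ≤ 2 * (2 : ℝ) ^ √(n : ℝ) := by linarith
    calc (k : ℝ) * (T + 1) ≤ k * (2 * (2 : ℝ) ^ √(n : ℝ)) :=
          mul_le_mul_of_nonneg_left this (by positivity)
      _ = _ := by ring
  have hbig : 12 * (1 + 2 * (k : ℝ)) < (2 : ℝ) ^ √(n : ℝ) := by
    have h1 : 12 * (1 + 2 * (k : ℝ)) < √(n : ℝ) := by
      rw [Real.lt_sqrt (by positivity)]
      exact hn₁.trans_le (by exact_mod_cast hnn₁)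
    refine h1.trans_le ?_
    have h2 : √(n : ℝ) * Real.log 2 + 1 ≤ Real.exp (√(n : ℝ) * Real.log 2) :=
      Real.add_one_le_exp _
    have h3 : (2 : ℝ) ^ √(n : ℝ) = Real.exp (√(n : ℝ) * Real.log 2) := by
      rw [Real.rpow_def_of_pos (by norm_num), mul_comm]
    -- `2 ^ x ≥ x` for all `x ≥ 0`
    rw [h3]
    have h4 : √(n : ℝ) * Real.log 2 / 2 + 1 ≤ Real.exp (√(n : ℝ) * Real.log 2 / 2) :=
      Real.add_one_le_exp _
    have h5 : Real.exp (√(n : ℝ) * Real.log 2) =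
        Real.exp (√(n : ℝ) * Real.log 2 / 2) * Real.exp (√(n : ℝ) * Real.log 2 / 2) := by
      rw [← Real.exp_add]
      ring_nf
    rw [h5]
    have h6 : (0.69 : ℝ) < Real.log 2 := by
      have := Real.log_two_gt_d9
      linarith
    obtain ⟨y, hy⟩ : ∃ y : ℝ, y = √(n : ℝ) * Real.log 2 / 2 := ⟨_, rfl⟩
    rw [← hy] at h4 ⊢
    have hy0 : 0 ≤ y := by rw [hy]; positivity
    have h7 : √(n : ℝ) ≤ 3 * y := by
      rw [hy]
      nlinarith
    have h8 : (y + 1) * (y + 1) ≤ Real.exp y * Real.exp y :=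
      mul_le_mul h4 h4 (by positivity) (by positivity)
    nlinarith [sq_nonneg (y - 1 / 2)]
  -- contradiction
  have hbn : (0 : ℝ) < (b : ℝ) ^ n := by positivity
  have hfin : (A.card : ℝ) < (b : ℝ) ^ n * Real.exp (-(C * √(n : ℝ))) := by
    have h1 : (2 : ℝ) ^ (-((n / s : ℕ) / D : ℝ)) ≤ (2 : ℝ) ^ (-((C' + 3) * √(n : ℝ))) :=
      Real.rpow_le_rpow_of_exponent_le (by norm_num) (neg_le_neg hexp)
    have h2 : (2 : ℝ) ^ (-((C' + 3) * √(n : ℝ))) =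
        ((2 : ℝ) ^ √(n : ℝ))⁻¹ * ((2 : ℝ) ^ √(n : ℝ))⁻¹ * ((2 : ℝ) ^ √(n : ℝ))⁻¹ *
          (2 : ℝ) ^ (-(C' * √(n : ℝ))) := by
      rw [← Real.rpow_neg (by norm_num), ← Real.rpow_add (by norm_num),
        ← Real.rpow_add (by norm_num), ← Real.rpow_add (by norm_num)]
      congr 1
      ring
    have h3 : (2 : ℝ) ^ (-(C' * √(n : ℝ))) ≤ Real.exp (-(C * √(n : ℝ))) := by
      rw [Real.rpow_def_of_pos (by norm_num), hC']
      apply Real.exp_le_exp.2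
      have e : Real.log 2 * -(max C 0 / Real.log 2 * √(n : ℝ)) = -(max C 0 * √(n : ℝ)) := by
        field_simp
      rw [e]
      exact neg_le_neg (mul_le_mul_of_nonneg_right (le_max_left _ _) hsq0.le)
    obtain ⟨X, hX⟩ : ∃ X : ℝ, X = (2 : ℝ) ^ √(n : ℝ) := ⟨_, rfl⟩
    rw [← hX] at hfour hTT hbig h2
    have hX0 : 0 < X := by rw [hX]; positivity
    have hX1 : 1 ≤ X := by linarith [hbig, hk']
    rw [← hD] at hmain
    calc (A.card : ℝ) ≤ 12 * (4 ^ (k * (q + 1) * (ℓ + 1)) + k * (T + 1)) * (b : ℝ) ^ n *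
          (2 : ℝ) ^ (-((n / s : ℕ) / D : ℝ)) := hmain
      _ ≤ 12 * (X + 2 * k * X) * (b : ℝ) ^ n * (X⁻¹ * X⁻¹ * X⁻¹ *
          (2 : ℝ) ^ (-(C' * √(n : ℝ)))) := by
            rw [← h2]
            apply mul_le_mul _ h1 (by positivity) (by positivity)
            apply mul_le_mul_of_nonneg_right _ hbn.le
            linarith
      _ = (12 * (1 + 2 * k)) * X⁻¹ * X⁻¹ * ((b : ℝ) ^ n * (2 : ℝ) ^ (-(C' * √(n : ℝ)))) := by
            field_simp
      _ < X * X⁻¹ * X⁻¹ * ((b : ℝ) ^ n * (2 : ℝ) ^ (-(C' * √(n : ℝ)))) := by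
            apply mul_lt_mul_of_pos_right _ (by positivity)
            apply mul_lt_mul_of_pos_right _ (by positivity)
            exact mul_lt_mul_of_pos_right hbig (by positivity)
      _ = X⁻¹ * ((b : ℝ) ^ n * (2 : ℝ) ^ (-(C' * √(n : ℝ)))) := by
            rw [mul_inv_cancel₀ hX0.ne', one_mul]
      _ ≤ 1 * ((b : ℝ) ^ n * (2 : ℝ) ^ (-(C' * √(n : ℝ)))) := by
            apply mul_le_mul_of_nonneg_right _ (by positivity)
            exact inv_le_one_of_one_le₀ hX1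
      _ ≤ _ := by
            rw [one_mul]
            exact mul_le_mul_of_nonneg_left h3 hbn.le
  linarith

/-- sets which are as large as Behrend's are almost disjoint from sets decided by circuits -/
theorem almost_disjoint (b : ℕ) (hb : 2 ≤ b) (k d : ℕ) (C δ : ℝ) (hδ : 0 < δ) :
    ∃ (c : ℝ) (n₀ : ℕ), 0 < c ∧ ∀ n w ℓ : ℕ, n₀ ≤ n → 1 ≤ w → 1 ≤ ℓ →
      ((w : ℝ) * ℓ) ^ (d + 1) ≤ c * √(n : ℝ) → ∀ F A : Finset ℕ, Decided b n w ℓ d F →
      APFree k A → (b : ℝ) ^ n * Real.exp (-(C * √(n : ℝ))) ≤ A.card →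
      ((A ∩ F).card : ℝ) ≤ δ * (A.card + F.card) := by
  obtain ⟨c₀, hc₀, h₀⟩ := relative_c b k hb δ hδ
  obtain ⟨C', hC'⟩ : ∃ C' : ℝ, C' = max C 0 / Real.log 2 := ⟨_, rfl⟩
  have hlog2 : 0 < Real.log 2 := Real.log_pos (by norm_num)
  have hC0 : 0 ≤ C' := by rw [hC']; positivity
  obtain ⟨K₂, hK₂⟩ : ∃ K₂ : ℝ, K₂ = (d + 1) * 2 ^ ((d + 10) * (d + 1)) := ⟨_, rfl⟩
  have hK₂0 : 0 < K₂ := by rw [hK₂]; positivity
  obtain ⟨c, hc⟩ : ∃ c : ℝ, c = min 1 (c₀ / (K₂ * (C' + 3))) := ⟨_, rfl⟩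
  have hc0 : 0 < c := by rw [hc]; exact lt_min (by positivity) (by positivity)
  have hc1 : c ≤ 1 := by rw [hc]; exact min_le_left _ _
  have hc2 : c ≤ c₀ / (K₂ * (C' + 3)) := by rw [hc]; exact min_le_right _ _
  obtain ⟨n₁, hn₁⟩ := exists_nat_gt ((1 / c₀ + |Real.logb 2 δ|) ^ 2)
  refine ⟨c, max n₁ 1, hc0, fun n w ℓ hn hw hℓ hwl F A hF hA hAc => ?_⟩
  have hnn₁ : n₁ ≤ n := (le_max_left _ _).trans hn
  have hn1 : 1 ≤ n := (le_max_right _ _).trans hn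
  have hn0 : (0 : ℝ) < n := by exact_mod_cast hn1
  have hsq0 : 0 < √(n : ℝ) := Real.sqrt_pos.2 hn0
  have hsq2 : √(n : ℝ) * √(n : ℝ) = n := Real.mul_self_sqrt hn0.le
  have hw' : (1 : ℝ) ≤ w := by exact_mod_cast hw
  have hℓ' : (1 : ℝ) ≤ ℓ := by exact_mod_cast hℓ
  obtain ⟨Z, hZ⟩ : ∃ Z : ℝ, Z = ((w : ℝ) * ℓ) ^ (d + 1) := ⟨_, rfl⟩
  rw [← hZ] at hwl
  have hwl1 : (1 : ℝ) ≤ (w : ℝ) * ℓ := one_le_mul_of_one_le_of_one_le hw' hℓ'
  have hZ0 : 0 < Z := by rw [hZ]; positivity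
  have hℓZ : (ℓ : ℝ) ≤ Z := by
    rw [hZ]
    calc (ℓ : ℝ) = 1 * ℓ := by ring
      _ ≤ w * ℓ := mul_le_mul_of_nonneg_right hw' (by positivity)
      _ ≤ (w * ℓ) ^ (d + 1) := le_self_pow₀ hwl1 (by omega)
  have hKK : (((d + 1 : ℕ) : ℝ) * Y347.CO.KK (d + 1) w ℓ) = K₂ * Z := by
    have h1 : ((Y347.CO.KK (d + 1) w ℓ : ℕ) : ℝ) =
        2 ^ ((d + 10) * (d + 1)) * ((w : ℝ) * ℓ) ^ (d + 1) := loss_eq w ℓ d
    rw [h1, hK₂, hZ]
    push_cast
    ring
  have h := h₀ n w ℓ d hw hℓ F A hF hA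
  rw [hKK] at h
  have hexp : (2 * ℓ + 1 / c₀ - c₀ * n / (K₂ * Z) : ℝ) ≤ Real.logb 2 δ - C' * √(n : ℝ) := by
    have h1 : (C' + 3) * √(n : ℝ) ≤ c₀ * n / (K₂ * Z) := by
      rw [le_div_iff₀ (by positivity)]
      rw [le_div_iff₀ (by positivity)] at hc2
      calc (C' + 3) * √(n : ℝ) * (K₂ * Z) ≤ (C' + 3) * √(n : ℝ) * (K₂ * (c * √(n : ℝ))) := by
            apply mul_le_mul_of_nonneg_left _ (by positivity)
            exact mul_le_mul_of_nonneg_left hwl hK₂0.le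
        _ = (c * (K₂ * (C' + 3))) * (√(n : ℝ) * √(n : ℝ)) := by ring
        _ ≤ c₀ * (√(n : ℝ) * √(n : ℝ)) := mul_le_mul_of_nonneg_right hc2 (by positivity)
        _ = _ := by rw [hsq2]
    have h2 : 1 / c₀ + |Real.logb 2 δ| ≤ √(n : ℝ) := by
      apply Real.le_sqrt_of_sq_le
      exact hn₁.le.trans (by exact_mod_cast hnn₁)
    have h3 : (ℓ : ℝ) ≤ √(n : ℝ) := by
      refine hℓZ.trans (hwl.trans ?_)
      nlinarith
    have h4 : -Real.logb 2 δ ≤ |Real.logb 2 δ| := neg_le_abs _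
    nlinarith
  have h1 : (2 : ℝ) ^ (2 * ℓ + 1 / c₀ - c₀ * n / (K₂ * Z) : ℝ) ≤
      δ * Real.exp (-(C * √(n : ℝ))) := by
    calc (2 : ℝ) ^ (2 * ℓ + 1 / c₀ - c₀ * n / (K₂ * Z) : ℝ) ≤
        (2 : ℝ) ^ (Real.logb 2 δ - C' * √(n : ℝ)) :=
          Real.rpow_le_rpow_of_exponent_le (by norm_num) hexp
      _ = (2 : ℝ) ^ (Real.logb 2 δ) * (2 : ℝ) ^ (-(C' * √(n : ℝ))) := by
          rw [← Real.rpow_add (by norm_num), sub_eq_add_neg]
      _ = δ * (2 : ℝ) ^ (-(C' * √(n : ℝ))) := by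
          rw [Real.rpow_logb (by norm_num) (by norm_num) hδ]
      _ ≤ _ := by
          apply mul_le_mul_of_nonneg_left _ hδ.le
          rw [Real.rpow_def_of_pos (by norm_num), hC']
          apply Real.exp_le_exp.2
          have e : Real.log 2 * -(max C 0 / Real.log 2 * √(n : ℝ)) = -(max C 0 * √(n : ℝ)) := by
            field_simp
          rw [e]
          exact neg_le_neg (mul_le_mul_of_nonneg_right (le_max_left _ _) hsq0.le)
  have hbn : (0 : ℝ) < (b : ℝ) ^ n := by positivity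
  calc ((A ∩ F).card : ℝ) ≤ δ * F.card + (b : ℝ) ^ n *
        (2 : ℝ) ^ (2 * ℓ + 1 / c₀ - c₀ * n / (K₂ * Z) : ℝ) := h
    _ ≤ δ * F.card + (b : ℝ) ^ n * (δ * Real.exp (-(C * √(n : ℝ)))) := by
        apply add_le_add le_rfl
        exact mul_le_mul_of_nonneg_left h1 hbn.le
    _ = δ * (b ^ n * Real.exp (-(C * √(n : ℝ))) + F.card) := by ring
    _ ≤ δ * (A.card + F.card) := by
        apply mul_le_mul_of_nonneg_left _ hδ.le
        linarith

/-- `A` is a largest subset of `[0, b ^ n)` without `k`-term progressions. -/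
def Extremal (b k n : ℕ) (A : Finset ℕ) : Prop :=
  A ⊆ range (b ^ n) ∧ APFree k A ∧ ∀ A' ⊆ range (b ^ n), APFree k A' → A'.card ≤ A.card

/-- Behrend's bound for the extremal sets -/
theorem extremal_large {b k n : ℕ} (hb : 2 ≤ b) (hk : 3 ≤ k) (hn : 12 ≤ n) {A : Finset ℕ}
    (hA : Extremal b k n A) :
    (b : ℝ) ^ n * Real.exp (-(4 * √(Real.log b) * √(n : ℝ))) ≤ A.card := by
  have hbn : 4096 ≤ b ^ n := by
    calc 4096 = 2 ^ 12 := by norm_num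
      _ ≤ b ^ 12 := Nat.pow_le_pow_left hb 12
      _ ≤ b ^ n := Nat.pow_le_pow_right (by omega) hn
  have h1 := Behrend.roth_lower_bound_explicit hbn
  obtain ⟨t, ht, htc, hfree⟩ := rothNumberNat_spec (b ^ n)
  have h2 : t.card ≤ A.card := by
    apply hA.2.2 t ht
    intro a d h
    have h0 := h 0 (by omega)
    have h1 := h 1 (by omega)
    have h2 := h 2 (by omega)
    have := hfree (mem_coe.2 h0) (mem_coe.2 h1) (mem_coe.2 h2) (by ring)
    omega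
  rw [htc] at h2
  have h3 : Real.log ((b ^ n : ℕ) : ℝ) = n * Real.log b := by
    push_cast
    rw [Real.log_pow]
  have h4 : √(Real.log ((b ^ n : ℕ) : ℝ)) = √(Real.log b) * √(n : ℝ) := by
    rw [h3, mul_comm, Real.sqrt_mul (Real.log_nonneg (by exact_mod_cast (by omega : 1 ≤ b)))]
  rw [h4] at h1
  push_cast at h1
  calc (b : ℝ) ^ n * Real.exp (-(4 * √(Real.log b) * √(n : ℝ))) =
      (b : ℝ) ^ n * Real.exp (-4 * (√(Real.log b) * √(n : ℝ))) := by ring_nf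
    _ ≤ _ := h1.le
    _ ≤ _ := by exact_mod_cast h2

end Pool.Agent.V5helper56.DC
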