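import Pool.Agent.N381.AC.Rel
import Pool.Agent.Helper868.DHJ
import Pool.Agent.V5helper56.DC.Box

set_option autoImplicit false

/-!
# Progression-free sets of integers inside sets decided by digit circuits
-/

namespace Pool.Agent.V5helper56.DC

open Finset hiding ext dens
open Function
open Pool.Agent.N381.AC
open Pool.Agent.Helper868.DHJ (LineFree dens pt ind av av_eq_sum density_hales_jewett)

/-- `A` contains no progression `a, a + d, …, a + (k - 1) d` with `d > 0`. -/
def APFree (k : ℕ) (A : Finset ℕ) : Prop := ∀ a d : ℕ, (∀ j < k, a + j * d ∈ A) → d = 0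

theorem num_inj {B m : ℕ} {y y' : Fin m → ℕ} (hy : ∀ v, y v < B) (hy' : ∀ v, y' v < B)
    (h : num B y = num B y') : y = y' := by
  funext v
  have h1 := num_digit y 0 hy v
  have h2 := num_digit y' 0 hy' v
  rw [← h1, ← h2, h]

section words
variable {b n : ℕ} [NeZero b]

/-- the words of the elements of a set of numbers -/
noncomputable def words (b n : ℕ) [NeZero b] (A : Finset ℕ) : Finset (Fin n → ZMod b) := by
  classical
  exact univ.filter fun x => num b (fun i => (x i).val) ∈ A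

theorem mem_words {A : Finset ℕ} (x : Fin n → ZMod b) :
    x ∈ words b n A ↔ num b (fun i => (x i).val) ∈ A := by
  classical
  unfold words
  simp

theorem num_val (a : ℕ) :
    num b (fun i : Fin n => ((a / b ^ (i : ℕ) % b : ℕ) : ZMod b).val) = a % b ^ n := by
  rw [← num_word]
  congr 1
  funext v
  exact ZMod.val_cast_of_lt (Nat.mod_lt _ (NeZero.pos b))

theorem card_words (A : Finset ℕ) (hA : ∀ a ∈ A, a < b ^ n) :
    (words b n A).card = A.card := by
  classical
  refine card_bij (fun x _ => num b (fun i => (x i).val)) ?_ ?_ ?_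
  · intro x hx
    exact (mem_words x).1 hx
  · intro x _ x' _ h
    have h1 := num_inj (fun v => ZMod.val_lt (x v)) (fun v => ZMod.val_lt (x' v)) h
    funext i
    exact ZMod.val_injective b (congrFun h1 i)
  · intro a ha
    refine ⟨fun i : Fin n => ((a / b ^ (i : ℕ) % b : ℕ) : ZMod b), ?_, ?_⟩
    · rw [mem_words, num_val, Nat.mod_eq_of_lt (hA a ha)]
      exact ha
    · rw [num_val, Nat.mod_eq_of_lt (hA a ha)]

theorem words_inter (A F : Finset ℕ) :
    words b n A ∩ words b n F = words b n (A ∩ F) := by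
  ext x
  rw [mem_inter, mem_words, mem_words, mem_words, mem_inter]

theorem block_lt {m j : ℕ} (hj : j < n / m) (u : Fin m) : j * m + (u : ℕ) < n := by
  have h1 : (j + 1) * m ≤ n / m * m := Nat.mul_le_mul_right _ hj
  have h2 := Nat.div_mul_le_self n m
  have h3 := u.2
  have h4 : (j + 1) * m = j * m + m := by ring
  omega

/-- the change of a block of digits -/
theorem num_ext {m : ℕ} (hm : 0 < m) {j : ℕ} (hj : j < n / m) (z : Fin n → ZMod b)
    (t : Fin m → ZMod b) :
    num b (fun i => ((z + ext n hm j t) i).val) =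
      (∑ i ∈ univ.filter (fun i : Fin n => ¬ (i : ℕ) / m = j), (z i).val * b ^ (i : ℕ)) +
        b ^ (j * m) * num b (fun u : Fin m => (z ⟨j * m + u, block_lt hj u⟩ + t u).val) := by
  classical
  unfold num
  rw [← sum_filter_add_sum_filter_not univ fun i : Fin n => (i : ℕ) / m = j, add_comm]
  congr 1
  · apply sum_congr rfl
    intro i hi
    rw [mem_filter] at hi
    have e : ext n hm j t i = 0 := by
      unfold ext
      rw [if_neg hi.2]
    show ((z + ext n hm j t) i).val * b ^ (i : ℕ) = _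
    rw [Pi.add_apply, e, add_zero]
  · rw [mul_sum]
    symm
    apply sum_bij (fun (u : Fin m) _ => (⟨j * m + u, block_lt hj u⟩ : Fin n))
    · intro u _
      rw [mem_filter]
      refine ⟨mem_univ _, ?_⟩
      show (j * m + (u : ℕ)) / m = j
      rw [mul_comm, Nat.mul_add_div hm, Nat.div_eq_of_lt u.2, add_zero]
    · intro u _ u' _ h
      have := congrArg Fin.val h
      simp only [add_right_inj] at this
      exact Fin.ext this
    · intro i hi
      rw [mem_filter] at hi
      refine ⟨⟨(i : ℕ) % m, Nat.mod_lt _ hm⟩, mem_univ _, ?_⟩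
      apply Fin.ext
      show j * m + (i : ℕ) % m = i
      rw [← hi.2, mul_comm]
      exact Nat.div_add_mod _ _
    · intro u _
      have e1 : (j * m + (u : ℕ)) / m = j := by
        rw [mul_comm, Nat.mul_add_div hm, Nat.div_eq_of_lt u.2, add_zero]
      have e2 : (j * m + (u : ℕ)) % m = u := by
        rw [mul_comm, Nat.mul_add_mod, Nat.mod_eq_of_lt u.2]
      have e : ext n hm j t ⟨j * m + u, block_lt hj u⟩ = t u := by
        unfold ext
        simp only [e1, e2, if_true, Fin.eta]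
      show b ^ (j * m) * ((z ⟨j * m + u, block_lt hj u⟩ + t u).val * b ^ (u : ℕ)) =
        ((z + ext n hm j t) ⟨j * m + u, block_lt hj u⟩).val * b ^ (j * m + (u : ℕ))
      rw [Pi.add_apply, e, pow_add]
      ring

theorem slice_card {m k r : ℕ} (hm : 0 < m)
    (hr : ∀ Y : Finset ℕ, (∀ y ∈ Y, y < b ^ m) → APFree k Y → Y.card ≤ r)
    {A : Finset ℕ} (hA : APFree k A) {j : ℕ} (hj : j < n / m) (z : Fin n → ZMod b) :
    (univ.filter fun t : Fin m → ZMod b => z + ext n hm j t ∈ words b n A).card ≤ r := by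
  classical
  obtain ⟨S, hS⟩ : ∃ S, S = (univ.filter fun t : Fin m → ZMod b =>
    z + ext n hm j t ∈ words b n A) := ⟨_, rfl⟩
  obtain ⟨y, hy⟩ : ∃ y : (Fin m → ZMod b) → ℕ, ∀ t, y t =
    num b (fun u : Fin m => (z ⟨j * m + u, block_lt hj u⟩ + t u).val) := ⟨_, fun _ => rfl⟩
  obtain ⟨c, hc⟩ : ∃ c, c = ∑ i ∈ univ.filter (fun i : Fin n => ¬ (i : ℕ) / m = j),
    (z i).val * b ^ (i : ℕ) := ⟨_, rfl⟩
  rw [← hS]
  have hinj : Injective y := by
    intro t t' h
    rw [hy, hy] at h
    have h1 := num_inj (fun v => ZMod.val_lt _) (fun v => ZMod.val_lt _) h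
    funext u
    have h2 := ZMod.val_injective b (congrFun h1 u)
    exact add_left_cancel h2
  have hval : ∀ t ∈ S, c + b ^ (j * m) * y t ∈ A := by
    intro t ht
    rw [hS, mem_filter, mem_words, num_ext hm hj] at ht
    rw [hy, hc]
    exact ht.2
  rw [← card_image_of_injective S hinj]
  apply hr
  · intro a ha
    obtain ⟨t, -, rfl⟩ := mem_image.1 ha
    rw [hy]
    exact num_lt _ fun v => ZMod.val_lt _
  · intro a d h
    have h1 := hA (c + b ^ (j * m) * a) (b ^ (j * m) * d) (by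
      intro i hi
      obtain ⟨t, ht, he⟩ := mem_image.1 (h i hi)
      have := hval t ht
      rw [he] at this
      convert this using 1
      ring)
    have hb := NeZero.pos b
    exact (Nat.mul_eq_zero.1 h1).resolve_left (by positivity)

end words

theorem relative {b k n m w ℓ d r : ℕ} (hb : 2 ≤ b) (hw : 1 ≤ w) (hℓ : 1 ≤ ℓ) (hm : 0 < m)
    (hr : ∀ Y : Finset ℕ, (∀ y ∈ Y, y < b ^ m) → APFree k Y → Y.card ≤ r)
    (F A : Finset ℕ) (hF : Decided b n w ℓ d F) (hA : APFree k A) {ε : ℝ} (hε : 0 < ε) :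
    ((A ∩ F).card : ℝ) ≤ (r / (b : ℝ) ^ m + ε) * F.card + m * ((b : ℝ) ^ n *
      (2 : ℝ) ^ (2 * ℓ + 4 - ε * (n / m : ℕ) / ((d + 1 : ℕ) * Y347.CO.KK (d + 1) w ℓ))) := by
  classical
  have : NeZero b := ⟨by omega⟩
  obtain ⟨C, o, hs, hd, hC⟩ := hF
  have hFlt : ∀ a ∈ F, a < b ^ n := fun a ha => ((hC a).1 ha).1
  have h := rel_add (pull C (fun (x : Fin n → ZMod b) i => (x i).val)
    (fun i => Or.inl ⟨i, ZMod.val, fun x => rfl⟩)) hℓ hw hs hd o (words b n F) (by
      intro x
      have hx : ∀ v, (x v).val < b := fun v => ZMod.val_lt _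
      rw [mem_words, hC]
      have e : (fun i : Fin n => num b (fun i => (x i).val) / b ^ (i : ℕ) % b) =
          fun i => (x i).val := by
        funext i
        have := num_digit (fun i => (x i).val) 0 hx i
        rwa [zero_mul, add_zero] at this
      rw [e]
      exact ⟨fun h => h.2, fun h => ⟨num_lt _ hx, h⟩⟩) (words b n A) hm r
      (fun j hj z => slice_card hm hr hA hj z) hε
  rw [ZMod.card, words_inter, card_words F hFlt,
    card_words (A ∩ F) fun a ha => hFlt a (mem_inter.1 ha).2] at h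
  exact h

section szemeredi

theorem szem (b k : ℕ) (hb : 2 ≤ b) (δ : ℝ) (hδ : 0 < δ) : ∃ m : ℕ, 1 ≤ m ∧
    ∀ Y : Finset ℕ, (∀ y ∈ Y, y < b ^ m) → APFree k Y → (Y.card : ℝ) ≤ δ * (b : ℝ) ^ m := by
  classical
  obtain ⟨B, hB⟩ : ∃ B, B = b ^ (k + 1) := ⟨_, rfl⟩
  have hkB : k < B := by
    rw [hB]
    exact (Nat.lt_succ_self k).trans (Nat.lt_pow_self (by omega))
  have hB0 : 0 < B := by omega
  obtain ⟨N, hN⟩ := density_hales_jewett (Fin B) δ hδ
  obtain ⟨M, hM⟩ : ∃ M : ℕ, M = max N 1 := ⟨_, rfl⟩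
  have hM1 : 1 ≤ M := by rw [hM]; exact le_max_right _ _
  have hMN : N ≤ M := by rw [hM]; exact le_max_left _ _
  refine ⟨(k + 1) * M, Nat.mul_pos (Nat.succ_pos k) hM1, fun Y hY hfree => ?_⟩
  obtain ⟨S, hS⟩ : ∃ S : Finset (Fin M → Fin B), S = univ.filter fun x =>
    num B (fun i => (x i : ℕ)) ∈ Y := ⟨_, rfl⟩
  have hmem : ∀ x, x ∈ S ↔ num B (fun i => (x i : ℕ)) ∈ Y := by
    intro x
    rw [hS, mem_filter]
    simp
  have hline : LineFree (S : Set (Fin M → Fin B)) := by
    intro u hu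
    by_contra hcon
    push Not at hcon
    obtain ⟨i0, hi0⟩ := hu
    have h := hfree (num B (fun i => ((pt u ⟨0, hB0⟩ i : Fin B) : ℕ)))
      (num B (fun v => if v ∈ univ.filter (fun i => u i = none) then 1 else 0)) (by
        intro j hj
        have h1 := (hmem _).1 (mem_coe.1 (hcon ⟨j, by omega⟩))
        convert h1 using 1
        unfold num
        rw [mul_sum, ← sum_add_distrib]
        apply sum_congr rfl
        intro i _
        unfold pt
        cases hi : u i <;> simp [hi])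
    have h2 := num_eq_zero hB0 _ h
    have h3 : i0 ∈ univ.filter (fun i => u i = none) := mem_filter.2 ⟨mem_univ _, hi0⟩
    rw [h2] at h3
    exact absurd h3 (notMem_empty _)
  have h5 := hN (Fin M) (by rw [Fintype.card_fin]; exact hMN) (S : Set (Fin M → Fin B)) hline
  have hpow : b ^ ((k + 1) * M) = B ^ M := by rw [hB, pow_mul]
  have hcard : Y.card ≤ S.card := by
    refine card_le_card_of_injOn (fun a (v : Fin M) => (⟨a / B ^ (v : ℕ) % B,
      Nat.mod_lt _ hB0⟩ : Fin B)) ?_ ?_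
    · intro a ha
      rw [mem_coe, hmem]
      have : num B (fun v : Fin M => a / B ^ (v : ℕ) % B) = a := by
        rw [num_word, Nat.mod_eq_of_lt]
        rw [← hpow]
        exact hY a ha
      show num B (fun v : Fin M => a / B ^ (v : ℕ) % B) ∈ Y
      rw [this]
      exact ha
    · intro a ha a' ha' h
      have h1 : a % B ^ M = a' % B ^ M := by
        rw [← num_word, ← num_word]
        congr 1
        funext v
        exact congrArg Fin.val (congrFun h v)
      rwa [Nat.mod_eq_of_lt (by rw [← hpow]; exact hY a ha),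
        Nat.mod_eq_of_lt (by rw [← hpow]; exact hY a' ha')] at h1
  have hSd : (S.card : ℝ) = dens (S : Set (Fin M → Fin B)) * (B : ℝ) ^ M := by
    unfold dens
    rw [av_eq_sum]
    have h1 : ∑ x, ind (S : Set (Fin M → Fin B)) x = S.card := by
      have : ∀ x, ind (S : Set (Fin M → Fin B)) x = if x ∈ S then 1 else 0 := by
        intro x
        by_cases hx : x ∈ S <;> simp [ind, hx]
      simp [this]
    have h2 : (Fintype.card (Fin M → Fin B) : ℝ) = (B : ℝ) ^ M := by
      rw [Fintype.card_fun, Fintype.card_fin, Fintype.card_fin]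
      push_cast
      rfl
    have hp : (0 : ℝ) < B := by exact_mod_cast hB0
    rw [h1, h2]
    field_simp
  have h6 : (b : ℝ) ^ ((k + 1) * M) = (B : ℝ) ^ M := by exact_mod_cast hpow
  rw [h6]
  calc (Y.card : ℝ) ≤ S.card := by exact_mod_cast hcard
    _ = dens (S : Set (Fin M → Fin B)) * (B : ℝ) ^ M := hSd
    _ ≤ _ := mul_le_mul_of_nonneg_right h5.le (by positivity)

end szemeredi

theorem relative_c (b k : ℕ) (hb : 2 ≤ b) (δ : ℝ) (hδ : 0 < δ) :
    ∃ c : ℝ, 0 < c ∧ ∀ n w ℓ d : ℕ, 1 ≤ w → 1 ≤ ℓ → ∀ F A : Finset ℕ,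
      Decided b n w ℓ d F → APFree k A →
      ((A ∩ F).card : ℝ) ≤ δ * F.card + (b : ℝ) ^ n *
        (2 : ℝ) ^ (2 * ℓ + 1 / c - c * n / ((d + 1 : ℕ) * Y347.CO.KK (d + 1) w ℓ)) := by
  classical
  obtain ⟨m, hm1, hm⟩ := szem b k hb (δ / 2) (half_pos hδ)
  obtain ⟨c, hc0, hcc⟩ := Y347.CO.num_c m hm1 m (δ / 2) (by exact_mod_cast hm1) (half_pos hδ)
  refine ⟨c, hc0, fun n w ℓ d hw hℓ F A hF hA => ?_⟩
  have hp0 : (0 : ℝ) < (b : ℝ) := by positivity
  have hX : (1 : ℝ) ≤ ((d + 1 : ℕ) : ℝ) * Y347.CO.KK (d + 1) w ℓ :=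
    Y347.CO.one_le_dKK (Nat.succ_pos d) hw hℓ
  obtain ⟨h1, h2⟩ := hcc n (((d + 1 : ℕ) : ℝ) * Y347.CO.KK (d + 1) w ℓ) (2 * ℓ) hX (by positivity)
  have hpn : (0 : ℝ) < (b : ℝ) ^ n := by positivity
  rcases le_or_gt m n with hmn | hnm
  · have h3 := h1 hmn
    have h4 := relative (r := ⌊δ / 2 * (b : ℝ) ^ m⌋₊) hb hw hℓ hm1
      (fun Y hY hf => Nat.le_floor (hm Y hY hf)) F A hF hA (half_pos hδ)
    have h6 : ((⌊δ / 2 * (b : ℝ) ^ m⌋₊ : ℕ) : ℝ) / (b : ℝ) ^ m ≤ δ / 2 := by
      rw [div_le_iff₀ (by positivity)]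
      exact Nat.floor_le (by positivity)
    have h7 : (((⌊δ / 2 * (b : ℝ) ^ m⌋₊ : ℕ) : ℝ) / (b : ℝ) ^ m + δ / 2) * (F.card : ℝ) ≤
        δ * F.card := mul_le_mul_of_nonneg_right (by linarith) (Nat.cast_nonneg _)
    have h8 := mul_le_mul_of_nonneg_left h3 hpn.le
    have e : (m : ℝ) * ((b : ℝ) ^ n * (2 : ℝ) ^ (2 * ℓ + 4 - δ / 2 * (n / m : ℕ) /
        ((d + 1 : ℕ) * Y347.CO.KK (d + 1) w ℓ))) = (b : ℝ) ^ n * (m * (2 : ℝ) ^ (2 * ℓ + 4 -
        δ / 2 * (n / m : ℕ) / ((d + 1 : ℕ) * Y347.CO.KK (d + 1) w ℓ))) := by ring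
    rw [e] at h4
    linarith
  · have h3 := h2 hnm
    have h4 := mul_le_mul_of_nonneg_left h3 hpn.le
    have h5 : ((A ∩ F).card : ℝ) ≤ (b : ℝ) ^ n := by
      obtain ⟨C, o, -, -, hC⟩ := hF
      have : (A ∩ F).card ≤ b ^ n := by
        have h9 : A ∩ F ⊆ range (b ^ n) := by
          intro a ha
          exact mem_range.2 ((hC a).1 (mem_inter.1 ha).2).1
        have := card_le_card h9
        rwa [card_range] at this
      exact_mod_cast this
    have h6 : 0 ≤ δ * (F.card : ℝ) := by positivity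
    linarith

end Pool.Agent.V5helper56.DC
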